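import Pool.Agent.L7h87.NC.Fin

/-!
# Nef cones of Fano varieties whose extremal contractions are fibrations

`X` is a `ℚ`-factorial normal complex projective variety of dimension `n`, with function field `K`,
whose nef cone is generated by the classes of finitely many base point free divisors. Smooth Fano
varieties have these properties, by the cone theorem and the base point free theorem. If the
contraction of every extremal ray of the cone of curves is a fibration, then the nef cone of `X` is
simplicial.

Outline. For an extremal ray `r` let `K_r ⊆ K` be the function field of the base of its contraction:
the elements which are algebraic over the quotients of the sections of a supporting divisor. A point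
`x` of `X` with coordinates in a function field `F` of one variable over a field `k` of constants
gives a linear form on `N¹(X)`, the height (the degree of the pull back of divisors); it is
nonnegative on base point free divisors, hence in the cone of curves, and it is a positive multiple
of `r` if `x` maps `K_r` but not `K` to constants. As `K_r` is smaller than `K`, the generic point of
`X` gives such an `x`, with `F = K`; hence effective divisors are nonnegative on all extremal rays,
and nef. Suppose that `r_1, ..., r_ρ` are linearly independent and generate extremal rays; fix `l`
and let `M` be the intersection of the fields `K_{r_j}` with `j ≠ l`. If `M` contains a nonconstant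
`f`, then the divisor of the zeros of `f` is nef, not numerically trivial and zero on `r_j` for all
`j ≠ l`; these `ρ` classes generate the nef cone. If `M = ℂ`, then two independent generic points
`x_0, x_m` of `X` in a large field are connected by a chain of points such that two successive points
agree on `K_{r_j}` for some `j ≠ l` (a chain of fibres). Let `L` be a class which is zero on `r_j`
for all `j ≠ l`. Successive points have the same height with respect to `L`. For each extremal ray
`r` choose the constants so that `x_0` and the restriction of `x_m` to `K_r` are constant but `x_m`
is not; the height at `x_0` is zero, and at `x_m` it is a positive multiple of the value of `L` on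
`r`. So `L` is zero on all extremal rays and `L = 0`, a contradiction.
-/

set_option autoImplicit false

open FF Pool.Agent.Y172 Pool.Agent.N110 Pool.Agent.N110.CC Pool.Agent.L7h87.NC

namespace Pool.Agent.Results.MP_cc17a8_ag.SimplicialNefCone

/-- Let `X` be the normal complex projective variety of dimension `n` whose generic point has the
homogeneous coordinates `y`, and let `c P` be the classes of the prime divisors `P` in
`N¹(X) = ℤ ^ ρ`. Suppose that `X` is `ℚ`-factorial, that its nef cone is generated by the classes of
finitely many base point free divisors, and that the contraction of every extremal ray of the closed
cone of curves is a fibration: some base point free divisor supporting the ray is not big. Then the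
nef cone of `X` is simplicial. -/
theorem result {K : Type} [Field K] [Algebra ℂ K] {N ρ n : ℕ} (y : Fin (N + 1) → K)
    (hy : NormalModel y) (hn : Algebra.trdeg ℂ K = n)
    (c : Place ℂ K → Fin ρ → ℤ) (hc : PicardBasis y c) (hQ : QFactorial y)
    (hpoly : NefPolyhedral y c)
    (hfib : ∀ r, Extremal y c r → ∃ D, Supports y c r D ∧ ¬ Big y n D) :
    Simplicial (nefCone y c) :=
  simplicial hy hn hc hQ hpoly hfib

end Pool.Agent.Results.MP_cc17a8_ag.SimplicialNefCone
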